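import Mathlib
import Pool.Agent.R1.Cert

/-!
# An energy decreasing subdivision outside the two conjectured situations

A graph `G` on eleven vertices and an edge `ij` whose subdivision lowers the energy
(from 20.8869 to 20.8604), while the common neighbours of `i` and `j` form a clique (so that `ij` is
not the central edge of an induced diamond) and the closed neighbourhoods of `i` and `j` differ.

The energies are compared by integer certificates: `ℰ(G) ≥ tr (A S)` for a matrix `S` with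
`-1 ≤ S ≤ 1`, and `ℰ(G_ij) ≤ tr P` for a matrix `P` with `-P ≤ B ≤ P`.
-/

set_option autoImplicit false
set_option maxRecDepth 100000

open Matrix Finset

namespace Pool.Agent.Results.MP_8ce0fa_co.Subdivision

open Pool.Agent.R1.Energy Pool.Agent.R1.Cert

/-- The graph `G_ij` obtained from `G` by subdividing the edge `ij`: the edge `ij` is deleted and
the new vertex `none` is joined to exactly `i` and `j`. -/
def subdivide {V : Type*} (G : SimpleGraph V) (i j : V) : SimpleGraph (Option V) where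
  Adj x y := match x, y with
    | none, none => False
    | none, some b => b = i ∨ b = j
    | some a, none => a = i ∨ a = j
    | some a, some b => G.Adj a b ∧ ¬ ((a = i ∧ b = j) ∨ (a = j ∧ b = i))
  symm := ⟨by
    rintro (_ | a) (_ | b) h
    · exact h
    · exact h
    · exact h
    · exact ⟨G.adj_symm h.1, fun h2 => h.2 (by tauto)⟩⟩
  loopless := ⟨by
    rintro (_ | a) h
    · exact h
    · exact h.1.ne rfl⟩

instance {V : Type*} [DecidableEq V] (G : SimpleGraph V) [DecidableRel G.Adj] (i j : V) :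
    DecidableRel (subdivide G i j).Adj
  | none, none => inferInstanceAs (Decidable False)
  | none, some b => inferInstanceAs (Decidable (b = i ∨ b = j))
  | some a, none => inferInstanceAs (Decidable (a = i ∨ a = j))
  | some a, some b =>
    inferInstanceAs (Decidable (G.Adj a b ∧ ¬ ((a = i ∧ b = j) ∨ (a = j ∧ b = i))))

/-- Condition 1: the edge `ij` is the central edge of an induced diamond. -/
def Diamond {V : Type*} (G : SimpleGraph V) (i j : V) : Prop :=
  G.Adj i j ∧ ∃ k l, k ≠ l ∧ G.Adj i k ∧ G.Adj i l ∧ G.Adj j k ∧ G.Adj j l ∧ ¬ G.Adj k l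

/-- Condition 2: `N[i] = N[j]` is a clique `W`, and every vertex of `W` other than `i` and `j` has
larger degree than `i`. -/
def CliqueCondition {V : Type*} (G : SimpleGraph V) (i j : V) : Prop :=
  (∀ x, (x = i ∨ G.Adj i x) ↔ (x = j ∨ G.Adj j x)) ∧
  (∀ x y, (x = i ∨ G.Adj i x) → (y = i ∨ G.Adj i y) → x ≠ y → G.Adj x y) ∧
  (∀ x, (x = i ∨ G.Adj i x) → x ≠ i → x ≠ j → (G.neighborSet i).ncard < (G.neighborSet x).ncard)

/-- the rows of the adjacency matrix of `G` -/
def AL : List (List ℤ) := [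
    [0, 1, 0, 0, 1, 0, 1, 1, 1, 0, 1],
    [1, 0, 0, 0, 1, 0, 1, 0, 1, 0, 1],
    [0, 0, 0, 1, 1, 1, 1, 1, 1, 1, 0],
    [0, 0, 1, 0, 0, 1, 1, 1, 1, 1, 1],
    [1, 1, 1, 0, 0, 1, 1, 0, 1, 1, 1],
    [0, 0, 1, 1, 1, 0, 0, 0, 1, 1, 1],
    [1, 1, 1, 1, 1, 0, 0, 1, 1, 1, 1],
    [1, 0, 1, 1, 0, 0, 1, 0, 1, 0, 0],
    [1, 1, 1, 1, 1, 1, 1, 1, 0, 0, 1],
    [0, 0, 1, 1, 1, 1, 1, 0, 0, 0, 1],
    [1, 1, 0, 1, 1, 1, 1, 0, 1, 1, 0]]

/-- the rows of the adjacency matrix of the subdivided graph -/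
def BL : List (List ℤ) := [
    [0, 0, 0, 0, 1, 0, 1, 1, 1, 0, 1, 1],
    [0, 0, 0, 0, 1, 0, 1, 0, 1, 0, 1, 1],
    [0, 0, 0, 1, 1, 1, 1, 1, 1, 1, 0, 0],
    [0, 0, 1, 0, 0, 1, 1, 1, 1, 1, 1, 0],
    [1, 1, 1, 0, 0, 1, 1, 0, 1, 1, 1, 0],
    [0, 0, 1, 1, 1, 0, 0, 0, 1, 1, 1, 0],
    [1, 1, 1, 1, 1, 0, 0, 1, 1, 1, 1, 0],
    [1, 0, 1, 1, 0, 0, 1, 0, 1, 0, 0, 0],
    [1, 1, 1, 1, 1, 1, 1, 1, 0, 0, 1, 0],
    [0, 0, 1, 1, 1, 1, 1, 0, 0, 0, 1, 0],
    [1, 1, 0, 1, 1, 1, 1, 0, 1, 1, 0, 0],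
    [1, 1, 0, 0, 0, 0, 0, 0, 0, 0, 0, 0]]

/-- 5003 times an approximation of the sign of `A` -/
def SL : List (List ℤ) := [
    [-1953, 2647, -642, -642, 1059, -1302, 1719, 1347, 1719, -1302, 1059],
    [2647, -1946, -1302, -1302, 1905, -546, 1149, -560, 1149, -546, 1905],
    [-642, -1302, -1184, 1316, 1167, 1453, 1029, 2007, 1029, 1453, -1333],
    [-642, -1302, 1316, -1184, -1333, 1453, 1029, 2007, 1029, 1453, 1167],
    [1059, 1905, 1167, -1333, -1361, 1468, 837, -1413, 837, 1468, 1139],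
    [-1302, -546, 1453, 1453, 1468, -917, -1162, -1317, 1338, 1583, 1468],
    [1719, 1149, 1029, 1029, 837, -1162, -1972, 1910, 528, 1338, 837],
    [1347, -560, 2007, 2007, -1413, -1317, 1910, -233, 1910, -1317, -1413],
    [1719, 1149, 1029, 1029, 837, 1338, 528, 1910, -1972, -1162, 837],
    [-1302, -546, 1453, 1453, 1468, 1583, 1338, -1317, -1162, -917, 1468],
    [1059, 1905, -1333, 1167, 1139, 1468, 837, -1413, 837, 1468, -1361]]

/-- 5000 times an approximation of the absolute value of `B` -/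
def PL : List (List ℤ) := [
    [8405, 6478, 3046, 3046, 767, 1123, 2691, 760, 2691, 1123, 767, -355],
    [6478, 7646, 1170, 1170, 2026, 2334, 862, 1095, 862, 2334, 2026, -308],
    [3046, 1170, 9132, 4129, 837, 2253, 2713, 1519, 2713, 2253, 5837, -1417],
    [3046, 1170, 4129, 9132, 5837, 2253, 2713, 1519, 2713, 2253, 837, -1417],
    [767, 2026, 837, 5837, 9667, 2095, 3406, 2613, 3406, 2095, 4664, 2569],
    [1123, 2334, 2253, 2253, 2095, 8467, 5884, 1854, 884, 3464, 2095, -1370],
    [2691, 862, 2713, 2713, 3406, 5884, 10238, 2278, 5235, 884, 3406, 2522],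
    [760, 1095, 1519, 1519, 2613, 1854, 2278, 9337, 2278, 1854, 2613, 759],
    [2691, 862, 2713, 2713, 3406, 884, 5235, 2278, 10238, 5884, 3406, 2522],
    [1123, 2334, 2253, 2253, 2095, 3464, 884, 1854, 5884, 8467, 2095, -1370],
    [767, 2026, 5837, 837, 4664, 2095, 3406, 2613, 3406, 2095, 9667, 2569],
    [-355, -308, -1417, -1417, 2569, -1370, 2522, 759, 2522, -1370, 2569, 3942]]

/-- `5003 - SL` -/
def M1 : List (List ℤ) := [
    [6956, -2647, 642, 642, -1059, 1302, -1719, -1347, -1719, 1302, -1059],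
    [-2647, 6949, 1302, 1302, -1905, 546, -1149, 560, -1149, 546, -1905],
    [642, 1302, 6187, -1316, -1167, -1453, -1029, -2007, -1029, -1453, 1333],
    [642, 1302, -1316, 6187, 1333, -1453, -1029, -2007, -1029, -1453, -1167],
    [-1059, -1905, -1167, 1333, 6364, -1468, -837, 1413, -837, -1468, -1139],
    [1302, 546, -1453, -1453, -1468, 5920, 1162, 1317, -1338, -1583, -1468],
    [-1719, -1149, -1029, -1029, -837, 1162, 6975, -1910, -528, -1338, -837],
    [-1347, 560, -2007, -2007, 1413, 1317, -1910, 5236, -1910, 1317, 1413],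
    [-1719, -1149, -1029, -1029, -837, -1338, -528, -1910, 6975, 1162, -837],
    [1302, 546, -1453, -1453, -1468, -1583, -1338, 1317, 1162, 5920, -1468],
    [-1059, -1905, 1333, -1167, -1139, -1468, -837, 1413, -837, -1468, 6364]]

/-- an approximate Cholesky factor of `10000 M1` -/
def C1 : List (List ℤ) := [
    [8339, 0, 0, 0, 0, 0, 0, 0, 0, 0, 0],
    [-3174, 7706, 0, 0, 0, 0, 0, 0, 0, 0, 0],
    [770, 2007, 7565, 0, 0, 0, 0, 0, 0, 0, 0],
    [770, 2007, -2350, 7190, 0, 0, 0, 0, 0, 0, 0],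
    [-1270, -2995, -619, 2623, 6765, 0, 0, 0, 0, 0, 0],
    [1561, 1352, -2438, -3362, -198, 6134, 0, 0, 0, 0, 0],
    [-2061, -2340, -530, -730, -2425, 2246, 6947, 0, 0, 0, 0],
    [-1615, 61, -2505, -3454, 2923, -250, -2661, 3979, 0, 0, 0],
    [-2061, -2340, -530, -730, -2425, -1830, -2532, -6596, 189, 0, 0],
    [1561, 1352, -2438, -3362, -198, -6094, 354, -531, 78, 263, 0],
    [-1270, -2995, 2686, 227, -3090, -318, -3338, 4987, -234, -143, 172]]

/-- `5003 + SL` -/
def M2 : List (List ℤ) := [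
    [3050, 2647, -642, -642, 1059, -1302, 1719, 1347, 1719, -1302, 1059],
    [2647, 3057, -1302, -1302, 1905, -546, 1149, -560, 1149, -546, 1905],
    [-642, -1302, 3819, 1316, 1167, 1453, 1029, 2007, 1029, 1453, -1333],
    [-642, -1302, 1316, 3819, -1333, 1453, 1029, 2007, 1029, 1453, 1167],
    [1059, 1905, 1167, -1333, 3642, 1468, 837, -1413, 837, 1468, 1139],
    [-1302, -546, 1453, 1453, 1468, 4086, -1162, -1317, 1338, 1583, 1468],
    [1719, 1149, 1029, 1029, 837, -1162, 3031, 1910, 528, 1338, 837],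
    [1347, -560, 2007, 2007, -1413, -1317, 1910, 4770, 1910, -1317, -1413],
    [1719, 1149, 1029, 1029, 837, 1338, 528, 1910, 3031, -1162, 837],
    [-1302, -546, 1453, 1453, 1468, 1583, 1338, -1317, -1162, 4086, 1468],
    [1059, 1905, -1333, 1167, 1139, 1468, 837, -1413, 837, 1468, 3642]]

/-- an approximate Cholesky factor of `40000 M2` -/
def C2 : List (List ℤ) := [
    [11043, 0, 0, 0, 0, 0, 0, 0, 0, 0, 0],
    [9588, 5504, 0, 0, 0, 0, 0, 0, 0, 0, 0],
    [-2325, -5411, 10863, 0, 0, 0, 0, 0, 0, 0, 0],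
    [-2325, -5411, 1652, 10737, 0, 0, 0, 0, 0, 0, 0],
    [3836, 7162, 8686, -1862, 833, 0, 0, 0, 0, 0, 0],
    [-4716, 4248, 6457, 5539, 741, 7084, 0, 0, 0, 0, 0],
    [6227, -2497, 3878, 3327, -14, -7053, 567, 0, 0, 0, 0],
    [4879, -12570, 2173, 1864, -728, -12, -162, 420, 0, 0, 0],
    [6227, -2497, 3878, 3327, -14, 7064, -304, 75, 278, 0, 0],
    [-4716, 4248, 6457, 5539, 741, -7042, 648, -161, -43, 376, 0],
    [3836, 7162, -519, 8868, 681, 16, 195, -189, -149, 166, 328]]

/-- `PL - 5000 BL` -/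
def M3 : List (List ℤ) := [
    [8405, 6478, 3046, 3046, -4233, 1123, -2309, -4240, -2309, 1123, -4233, -5355],
    [6478, 7646, 1170, 1170, -2974, 2334, -4138, 1095, -4138, 2334, -2974, -5308],
    [3046, 1170, 9132, -871, -4163, -2747, -2287, -3481, -2287, -2747, 5837, -1417],
    [3046, 1170, -871, 9132, 5837, -2747, -2287, -3481, -2287, -2747, -4163, -1417],
    [-4233, -2974, -4163, 5837, 9667, -2905, -1594, 2613, -1594, -2905, -336, 2569],
    [1123, 2334, -2747, -2747, -2905, 8467, 5884, 1854, -4116, -1536, -2905, -1370],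
    [-2309, -4138, -2287, -2287, -1594, 5884, 10238, -2722, 235, -4116, -1594, 2522],
    [-4240, 1095, -3481, -3481, 2613, 1854, -2722, 9337, -2722, 1854, 2613, 759],
    [-2309, -4138, -2287, -2287, -1594, -4116, 235, -2722, 10238, 5884, -1594, 2522],
    [1123, 2334, -2747, -2747, -2905, -1536, -4116, 1854, 5884, 8467, -2905, -1370],
    [-4233, -2974, 5837, -4163, -336, -2905, -1594, 2613, -1594, -2905, 9667, 2569],
    [-5355, -5308, -1417, -1417, 2569, -1370, 2522, 759, 2522, -1370, 2569, 3942]]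

/-- an approximate Cholesky factor of `250000 M3` -/
def C3 : List (List ℤ) := [
    [45837, 0, 0, 0, 0, 0, 0, 0, 0, 0, 0, 0],
    [35332, 25748, 0, 0, 0, 0, 0, 0, 0, 0, 0, 0],
    [16613, -11437, 43313, 0, 0, 0, 0, 0, 0, 0, 0, 0],
    [16613, -11437, -14420, 40842, 0, 0, 0, 0, 0, 0, 0, 0],
    [-23087, 2805, -14433, 40810, 1368, 0, 0, 0, 0, 0, 0, 0],
    [6125, 14257, -14440, -20412, -159, 35363, 0, 0, 0, 0, 0, 0],
    [-12594, -22897, -14416, -20378, -1076, 35356, 1466, 0, 0, 0, 0, 0],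
    [-23125, 42365, -36, -50, 1515, -5, -981, 1089, 0, 0, 0, 0],
    [-12594, -22897, -14416, -20378, -1076, -35340, 747, -957, 1343, 0, 0, 0],
    [6125, 14257, -14440, -20412, -159, -35347, 7, -303, 612, 800, 0, 0],
    [-23087, 2805, 43287, -23, 590, -3, -486, 644, 14, -72, 931, 0],
    [-29207, -11460, -2, -3, 137, -8, 426, 49, -179, -590, 261, 512]]

/-- `PL + 5000 BL` -/
def M4 : List (List ℤ) := [
    [8405, 6478, 3046, 3046, 5767, 1123, 7691, 5760, 7691, 1123, 5767, 4645],
    [6478, 7646, 1170, 1170, 7026, 2334, 5862, 1095, 5862, 2334, 7026, 4692],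
    [3046, 1170, 9132, 9129, 5837, 7253, 7713, 6519, 7713, 7253, 5837, -1417],
    [3046, 1170, 9129, 9132, 5837, 7253, 7713, 6519, 7713, 7253, 5837, -1417],
    [5767, 7026, 5837, 5837, 9667, 7095, 8406, 2613, 8406, 7095, 9664, 2569],
    [1123, 2334, 7253, 7253, 7095, 8467, 5884, 1854, 5884, 8464, 7095, -1370],
    [7691, 5862, 7713, 7713, 8406, 5884, 10238, 7278, 10235, 5884, 8406, 2522],
    [5760, 1095, 6519, 6519, 2613, 1854, 7278, 9337, 7278, 1854, 2613, 759],
    [7691, 5862, 7713, 7713, 8406, 5884, 10235, 7278, 10238, 5884, 8406, 2522],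
    [1123, 2334, 7253, 7253, 7095, 8464, 5884, 1854, 5884, 8467, 7095, -1370],
    [5767, 7026, 5837, 5837, 9664, 7095, 8406, 2613, 8406, 7095, 9667, 2569],
    [4645, 4692, -1417, -1417, 2569, -1370, 2522, 759, 2522, -1370, 2569, 3942]]

/-- an approximate Cholesky factor of `250000 M4` -/
def C4 : List (List ℤ) := [
    [45836, 0, 0, 0, 0, 0, 0, 0, 0, 0, 0, 0],
    [35332, 25745, 0, 0, 0, 0, 0, 0, 0, 0, 0, 0],
    [16614, -11439, 43311, 0, 0, 0, 0, 0, 0, 0, 0, 0],
    [16614, -11439, 43301, 937, 0, 0, 0, 0, 0, 0, 0, 0],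
    [31455, 25059, 28245, 306, 1109, 0, 0, 0, 0, 0, 0, 0],
    [6125, 14259, 43282, 468, 1014, 1003, 0, 0, 0, 0, 0, 0],
    [41948, -646, 28259, 306, -54, 53, 632, 0, 0, 0, 0, 0],
    [31416, -32483, 16999, 184, -1047, -551, 265, 1163, 0, 0, 0, 0],
    [41948, -646, 28259, 306, -54, 53, -62, 158, 609, 0, 0, 0],
    [6125, 14259, 43282, 468, 1014, 565, 37, -216, 98, 793, 0, 0],
    [31455, 25059, 28245, 306, 713, 400, -67, -151, -37, 187, 705, 0],
    [25335, 10793, -15047, -163, -36, -184, -9, 60, -26, -82, 117, 596]]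

/-- the graph on eleven vertices -/
def G : SimpleGraph (Fin 11) where
  Adj x y := ent AL x y = 1
  symm := ⟨by decide +kernel⟩
  loopless := ⟨by decide +kernel⟩

instance : DecidableRel G.Adj := fun x y => inferInstanceAs (Decidable (ent AL x y = 1))

lemma ent_AL : ∀ x y : Fin 11, ent AL x y = if G.Adj x y then 1 else 0 := by decide +kernel

lemma ent_BL : ∀ x y : Fin 12, ent BL x y =
    if (subdivide G 0 1).Adj (finSuccEquivLast x) (finSuccEquivLast y) then 1 else 0 := by
  decide +kernel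

lemma check1 : check 11 M1 C1 10000 = true := by decide +kernel

lemma check2 : check 11 M2 C2 40000 = true := by decide +kernel

lemma check3 : check 12 M3 C3 250000 = true := by decide +kernel

lemma check4 : check 12 M4 C4 250000 = true := by decide +kernel

lemma ent_M1 : ∀ x y : Fin 11, ent M1 x y = (if x = y then 5003 else 0) - ent SL x y := by
  decide +kernel

lemma ent_M2 : ∀ x y : Fin 11, ent M2 x y = (if x = y then 5003 else 0) + ent SL x y := by
  decide +kernel

lemma ent_M3 : ∀ x y : Fin 12, ent M3 x y = ent PL x y - 5000 * ent BL x y := by decide +kernel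

lemma ent_M4 : ∀ x y : Fin 12, ent M4 x y = ent PL x y + 5000 * ent BL x y := by decide +kernel

lemma sum_AS : ∑ x : Fin 11, ∑ y : Fin 11, ent AL x y * ent SL y x = 104432 := by decide +kernel

lemma sum_P : ∑ x : Fin 12, ent PL x x = 104338 := by decide +kernel

lemma energy_G : (104432 / 5003 : ℝ) ≤ energy G := by
  rw [energy_eq]
  have h := lower (G.adjMatrix ℝ) (herm G) (fun x y => (ent SL x y : ℝ) / 5003) ?_ ?_
  · refine le_trans (le_of_eq ?_) h
    have h1 : ∀ x y : Fin 11, G.adjMatrix ℝ x y = (ent AL x y : ℝ) := by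
      intro x y
      rw [ent_AL, SimpleGraph.adjMatrix_apply]
      split_ifs <;> simp
    have h2 : ((∑ x : Fin 11, ∑ y : Fin 11, ent AL x y * ent SL y x : ℤ) : ℝ) = 104432 := by
      rw [sum_AS]
      norm_num
    simp only [h1]
    push_cast at h2
    rw [← h2, Finset.sum_div]
    refine Finset.sum_congr rfl fun x _ => ?_
    rw [Finset.sum_div]
    exact Finset.sum_congr rfl fun y _ => by ring
  · intro x
    have h1 := check_sound 11 M1 C1 10000 (by norm_num) check1 x
    have h2 : ∑ i, ∑ j, x i * ((if i = j then 1 else 0) - (ent SL i j : ℝ) / 5003) * x j =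
        (∑ i : Fin 11, ∑ j : Fin 11, x i * (ent M1 i j : ℝ) * x j) / 5003 := by
      rw [Finset.sum_div]
      refine Finset.sum_congr rfl fun i _ => ?_
      rw [Finset.sum_div]
      refine Finset.sum_congr rfl fun j _ => ?_
      rw [ent_M1]
      push_cast
      split_ifs <;> ring
    rw [h2]
    positivity
  · intro x
    have h1 := check_sound 11 M2 C2 40000 (by norm_num) check2 x
    have h2 : ∑ i, ∑ j, x i * ((if i = j then 1 else 0) + (ent SL i j : ℝ) / 5003) * x j =
        (∑ i : Fin 11, ∑ j : Fin 11, x i * (ent M2 i j : ℝ) * x j) / 5003 := by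
      rw [Finset.sum_div]
      refine Finset.sum_congr rfl fun i _ => ?_
      rw [Finset.sum_div]
      refine Finset.sum_congr rfl fun j _ => ?_
      rw [ent_M2]
      push_cast
      split_ifs <;> ring
    rw [h2]
    positivity

lemma sum_opt (f : Option (Fin 11) → ℝ) : ∑ i, f i = ∑ i : Fin 12, f (finSuccEquivLast i) :=
  (Equiv.sum_comp finSuccEquivLast f).symm

lemma energy_sub : energy (subdivide G 0 1) ≤ 104338 / 5000 := by
  rw [energy_eq]
  have hB : ∀ i j : Fin 12, (subdivide G 0 1).adjMatrix ℝ (finSuccEquivLast i) (finSuccEquivLast j) =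
      (ent BL i j : ℝ) := by
    intro i j
    rw [ent_BL, SimpleGraph.adjMatrix_apply]
    split_ifs <;> simp
  have h := upper ((subdivide G 0 1).adjMatrix ℝ) (herm _)
    (fun x y => (ent PL (finSuccEquivLast.symm x : Fin 12) (finSuccEquivLast.symm y : Fin 12) : ℝ)
      / 5000) ?_ ?_
  · refine h.trans (le_of_eq ?_)
    rw [sum_opt]
    have h2 : ((∑ x : Fin 12, ent PL x x : ℤ) : ℝ) = 104338 := by
      rw [sum_P]
      norm_num
    push_cast at h2
    rw [← h2, Finset.sum_div]
    refine Finset.sum_congr rfl fun i _ => ?_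
    rw [Equiv.symm_apply_apply]
  · intro x
    have h1 := check_sound 12 M3 C3 250000 (by norm_num) check3 (fun i => x (finSuccEquivLast i))
    have h2 : ∑ i, ∑ j, x i * ((ent PL (finSuccEquivLast.symm i : Fin 12)
        (finSuccEquivLast.symm j : Fin 12) : ℝ) / 5000 - (subdivide G 0 1).adjMatrix ℝ i j) * x j =
        (∑ i : Fin 12, ∑ j : Fin 12, x (finSuccEquivLast i) * (ent M3 i j : ℝ) *
          x (finSuccEquivLast j)) / 5000 := by
      rw [sum_opt, Finset.sum_div]
      refine Finset.sum_congr rfl fun i _ => ?_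
      rw [sum_opt, Finset.sum_div]
      refine Finset.sum_congr rfl fun j _ => ?_
      rw [ent_M3, hB, Equiv.symm_apply_apply, Equiv.symm_apply_apply]
      push_cast
      ring
    rw [h2]
    positivity
  · intro x
    have h1 := check_sound 12 M4 C4 250000 (by norm_num) check4 (fun i => x (finSuccEquivLast i))
    have h2 : ∑ i, ∑ j, x i * ((ent PL (finSuccEquivLast.symm i : Fin 12)
        (finSuccEquivLast.symm j : Fin 12) : ℝ) / 5000 + (subdivide G 0 1).adjMatrix ℝ i j) * x j =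
        (∑ i : Fin 12, ∑ j : Fin 12, x (finSuccEquivLast i) * (ent M4 i j : ℝ) *
          x (finSuccEquivLast j)) / 5000 := by
      rw [sum_opt, Finset.sum_div]
      refine Finset.sum_congr rfl fun i _ => ?_
      rw [sum_opt, Finset.sum_div]
      refine Finset.sum_congr rfl fun j _ => ?_
      rw [ent_M4, hB, Equiv.symm_apply_apply, Equiv.symm_apply_apply]
      push_cast
      ring
    rw [h2]
    positivity

/-- There are a graph `G` and an edge `ij` of `G` whose subdivision lowers the energy, such that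
`ij` is not the central edge of an induced diamond and condition 2 fails. -/
theorem result : ∃ (V : Type) (_ : Fintype V) (G : SimpleGraph V) (i j : V), G.Adj i j ∧
    energy (subdivide G i j) < energy G ∧ ¬ Diamond G i j ∧ ¬ CliqueCondition G i j := by
  refine ⟨Fin 11, inferInstance, G, 0, 1, by decide +kernel, ?_, ?_, ?_⟩
  · exact energy_sub.trans_lt (lt_of_lt_of_le (by norm_num) energy_G)
  · have h : ∀ k l : Fin 11, k ≠ l → G.Adj 0 k → G.Adj 0 l → G.Adj 1 k → G.Adj 1 l → G.Adj k l := by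
      decide +kernel
    rintro ⟨-, k, l, h1, h2, h3, h4, h5, h6⟩
    exact h6 (h k l h1 h2 h3 h4 h5)
  · rintro ⟨h, -, -⟩
    have h1 : ¬ ((7 : Fin 11) = 1 ∨ G.Adj 1 7) := by decide +kernel
    have h2 : ((7 : Fin 11) = 0 ∨ G.Adj 0 7) := by decide +kernel
    exact h1 ((h 7).1 h2)

end Pool.Agent.Results.MP_8ce0fa_co.Subdivision
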